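import Mathlib
import Pool.Prelude.Def_F_458e953d

set_option autoImplicit false

/-!
# Disjoint pairs of languages, hard for NP ∩ coNP
-/

namespace Pool.Agent.Helper20.PP

open N68a2faeb N793a5b8e N487b59b3

/-- no word is in both languages -/
def Disj (B₁ B₀ : DecisionProblem) : Prop := ∀ x, ¬ (B₁ x = true ∧ B₀ x = true)

/-- the union of two languages -/
def union (B₁ B₀ : DecisionProblem) : DecisionProblem := fun x => B₁ x || B₀ x

/-- The pair `(A₁, A₀)` is reducible to the pair `(B₁, B₀)`. -/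
def PairReducible (A₁ A₀ B₁ B₀ : DecisionProblem) : Prop :=
  ∃ f : List Bool → List Bool, IsPolyTime f ∧ ∀ x, (A₁ x = true → B₁ (f x) = true) ∧
    (A₀ x = true → B₀ (f x) = true)

/-- The pair `(B₁, B₀)` is hard for NP ∩ coNP: `(L, Lᶜ)` is reducible to it for every language
`L` in NP ∩ coNP. -/
def HardPair (B₁ B₀ : DecisionProblem) : Prop :=
  ∀ L ∈ NP ∩ coNP, PairReducible L Lᶜ B₁ B₀

/-- The disjoint NP-pair `(B₁, B₀)` is complete: every disjoint NP-pair is reducible to it. -/
def CompleteNPPair (B₁ B₀ : DecisionProblem) : Prop :=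
  (B₁ ∈ NP ∧ B₀ ∈ NP ∧ Disj B₁ B₀) ∧
    ∀ A₁ A₀ : DecisionProblem, A₁ ∈ NP → A₀ ∈ NP → Disj A₁ A₀ → PairReducible A₁ A₀ B₁ B₀

/-- Some complete language of the class `C` has a p-optimal proof system. -/
def HasPOptimal (C : DecisionComplexityClass) : Prop :=
  ∃ (K : DecisionProblem) (h : List Bool → List Bool), IsCompleteFor C K ∧
    IsPOptimalProofSystem K h

end Pool.Agent.Helper20.PP
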