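import Mathlib
import Pool.Agent.Helper22.OracleTally
import Pool.Agent.Helper20.PP.Defs

set_option autoImplicit false

/-!
# p-optimal proof systems, hard disjoint pairs, complete languages for NP ∩ coNP
-/

namespace Pool.Agent.Helper20.PP

open Turing Function N487b59b3 N68a2faeb N793a5b8e Pool.Agent.Helper22

/-! ## Closure properties of NP -/

theorem NP_preimage {L : DecisionProblem} (hL : L ∈ NP) {h : List Bool → List Bool} (hh : FP h) :
    (fun w => L (h w) : DecisionProblem) ∈ NP := by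
  obtain ⟨p, R, hR, hLR⟩ := hL
  have hR' := (isPolyTime_iff _).1 hR
  obtain ⟨B, hB, hBm, hBle⟩ := hh.bound
  have hPB : PB fun n => p.eval (B (3 * n)) := by
    have h1 : PB fun n => p.eval n := PB.poly p
    have h2 : PB fun n => B (3 * n) := hB.comp (by fun_prop)
    exact h1.comp h2
  obtain ⟨q, hq⟩ := exists_poly hPB
  refine ⟨q, fun a => wL R p (h a.1, a.2), (isPolyTime_iff _).2 ?_, fun w => ?_⟩
  · exact (wL_FP hR' p).comp (by fun_prop)
  · have hbd : p.eval (h w).length ≤ q.eval w.length := by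
      refine le_trans (poly_mono p ?_) (hq _)
      have h1 := hBle w
      have h2 := length_le_sz (h w)
      rw [sz_bits w] at h1
      omega
    simp only [wL_iff]
    rw [hLR (h w)]
    constructor
    · rintro ⟨u, hu, hu'⟩
      exact ⟨u, hu.trans hbd, hu, hu'⟩
    · rintro ⟨u, _, hu, hu'⟩
      exact ⟨u, hu, hu'⟩

theorem NP_union {L L' : DecisionProblem} (hL : L ∈ NP) (hL' : L' ∈ NP) : union L L' ∈ NP := by
  obtain ⟨p, R, hR, hLR⟩ := hL
  obtain ⟨p', R', hR', hLR'⟩ := hL'
  refine ⟨p + p', fun a => wL R p a || wL R' p' a, (isPolyTime_iff _).2 ?_, fun x => ?_⟩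
  · exact (wL_FP ((isPolyTime_iff _).1 hR) p).or (wL_FP ((isPolyTime_iff _).1 hR') p')
  · simp only [union, Bool.or_eq_true, wL_iff, Polynomial.eval_add]
    rw [hLR x, hLR' x]
    constructor
    · rintro (⟨u, hu, hu'⟩ | ⟨u, hu, hu'⟩)
      · exact ⟨u, by omega, Or.inl ⟨hu, hu'⟩⟩
      · exact ⟨u, by omega, Or.inr ⟨hu, hu'⟩⟩
    · rintro ⟨u, _, ⟨hu, hu'⟩ | ⟨hu, hu'⟩⟩
      · exact Or.inl ⟨u, hu, hu'⟩
      · exact Or.inr ⟨u, hu, hu'⟩

theorem NP_inter {L L' : DecisionProblem} (hL : L ∈ NP) (hL' : L' ∈ NP) :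
    (fun x => L x && L' x : DecisionProblem) ∈ NP := by
  obtain ⟨p, R, hR, hLR⟩ := hL
  obtain ⟨p', R', hR', hLR'⟩ := hL'
  refine ⟨2 * p + 1 + p', fun a => wL R p (a.1, cf a.2) && wL R' p' (a.1, cs a.2),
    (isPolyTime_iff _).2 ?_, fun x => ?_⟩
  · have h1 : FP fun a : List Bool × List Bool => wL R p (a.1, cf a.2) :=
      (wL_FP ((isPolyTime_iff _).1 hR) p).comp (by fun_prop)
    have h2 : FP fun a : List Bool × List Bool => wL R' p' (a.1, cs a.2) :=
      (wL_FP ((isPolyTime_iff _).1 hR') p').comp (by fun_prop)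
    exact h1.and h2
  · simp only [Bool.and_eq_true, wL_iff, Polynomial.eval_add, Polynomial.eval_mul,
      Polynomial.eval_one, Polynomial.eval_ofNat]
    rw [hLR x, hLR' x]
    constructor
    · rintro ⟨⟨u, hu, hu'⟩, ⟨v, hv, hv'⟩⟩
      refine ⟨cd u v, ?_, ?_⟩
      · rw [cd_length]; omega
      · rw [cf_cd, cs_cd]; exact ⟨⟨hu, hu'⟩, ⟨hv, hv'⟩⟩
    · rintro ⟨u, _, ⟨hu, hu'⟩, ⟨hv, hv'⟩⟩
      exact ⟨⟨_, hu, hu'⟩, ⟨_, hv, hv'⟩⟩

theorem coNP_preimage {L : DecisionProblem} (hL : L ∈ coNP) {h : List Bool → List Bool}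
    (hh : FP h) : (fun w => L (h w) : DecisionProblem) ∈ coNP :=
  NP_preimage (L := Lᶜ) hL hh

theorem coNP_union {L L' : DecisionProblem} (hL : L ∈ coNP) (hL' : L' ∈ coNP) :
    union L L' ∈ coNP := by
  have h := NP_inter (L := Lᶜ) (L' := L'ᶜ) hL hL'
  have h2 : (union L L')ᶜ = (fun x => Lᶜ x && L'ᶜ x : DecisionProblem) := by
    funext x
    simp [union]
  show (union L L')ᶜ ∈ NP
  rw [h2]
  exact h

/-! ## p-optimal proof systems go down along reductions -/

theorem popt_down {K D : DecisionProblem} {h : List Bool → List Bool}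
    (hK : IsPOptimalProofSystem K h) {r : List Bool → List Bool} (hr : FP r)
    (hrD : ∀ y, D y = K (r y)) {y₀ : List Bool} (hy₀ : D y₀ = true) :
    ∃ k, IsPOptimalProofSystem D k := by
  obtain ⟨⟨hh, hrange⟩, hopt⟩ := hK
  have hh' := (isPolyTime_iff _).1 hh
  have hk : FP fun v : List Bool => if weq (h (cs v)) (r (cf v)) then cf v else y₀ := by
    have h1 : FP fun v : List Bool => h (cs v) := hh'.comp (by fun_prop)
    have h2 : FP fun v : List Bool => r (cf v) := hr.comp (by fun_prop)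
    exact FP.ite (FP.weq h1 h2) (by fun_prop) (FP.const _)
  refine ⟨fun v => if weq (h (cs v)) (r (cf v)) then cf v else y₀,
    ⟨(isPolyTime_iff _).2 hk, fun y => ⟨fun hy => ?_, ?_⟩⟩, fun g hg => ?_⟩
  · rw [hrD] at hy
    obtain ⟨w, hw⟩ := (hrange _).1 hy
    refine ⟨cd y w, ?_⟩
    beta_reduce
    rw [cs_cd, cf_cd, if_pos ((weq_iff _ _).2 hw)]
  · rintro ⟨v, rfl⟩
    beta_reduce
    split_ifs with h1
    · rw [hrD, ← (weq_iff _ _).1 h1]
      exact (hrange _).2 ⟨_, rfl⟩
    · exact hy₀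
  · have hg' := (isPolyTime_iff _).1 hg.1
    -- a proof system for `K`
    have hg2 : FP fun v : List Bool => if v.headD false then h v.tail else r (g v.tail) := by
      have h1 : FP fun v : List Bool => v.headD false := FP.headD FP.id _
      have h2 : FP fun v : List Bool => h v.tail := hh'.comp (by fun_prop)
      have h3 : FP fun v : List Bool => g v.tail := hg'.comp (by fun_prop)
      exact FP.ite h1 h2 (hr.comp h3)
    obtain ⟨k, hk2, hk3⟩ := hopt _ ⟨(isPolyTime_iff _).2 hg2, fun y => ⟨fun hy => by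
        obtain ⟨w, hw⟩ := (hrange y).1 hy
        exact ⟨true :: w, by simpa using hw⟩, by
        rintro ⟨v, rfl⟩
        split_ifs with h1
        · exact (hrange _).2 ⟨_, rfl⟩
        · rw [← hrD]
          exact (hg.2 _).2 ⟨_, rfl⟩⟩⟩
    have hk2' := (isPolyTime_iff _).1 hk2
    refine ⟨fun v => cd (g v) (k (false :: v)), (isPolyTime_iff _).2 ?_, fun v => ?_⟩
    · have h1 : FP fun v : List Bool => k (false :: v) := hk2'.comp (by fun_prop)
      exact FP.cd hg' h1
    · have h1 := hk3 (false :: v)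
      simp only [List.headD_cons, List.tail_cons, Bool.false_eq_true, if_false] at h1
      beta_reduce
      rw [cs_cd, cf_cd, if_pos ((weq_iff _ _).2 h1)]

/-! ## Complete languages from hard pairs -/

theorem complete_of_hardPair {B₁ B₀ : DecisionProblem} (hard : HardPair B₁ B₀)
    {h : List Bool → List Bool} (hopt : IsPOptimalProofSystem (union B₁ B₀) h)
    (hU : (fun w => B₁ (h w) : DecisionProblem) ∈ NP ∩ coNP) (hdisj : Disj B₁ B₀) :
    IsCompleteFor (NP ∩ coNP) fun w => B₁ (h w) := by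
  refine ⟨hU, fun L hL => ?_⟩
  obtain ⟨f, hf, hfL⟩ := hard L hL
  have hf' := (isPolyTime_iff _).1 hf
  have hh' := (isPolyTime_iff _).1 hopt.1.1
  have hg : FP fun v : List Bool => if v.headD false then h v.tail else f v.tail := by
    have h1 : FP fun v : List Bool => v.headD false := FP.headD FP.id _
    have h2 : FP fun v : List Bool => h v.tail := hh'.comp (by fun_prop)
    have h3 : FP fun v : List Bool => f v.tail := hf'.comp (by fun_prop)
    exact FP.ite h1 h2 h3
  have hfU : ∀ x, union B₁ B₀ (f x) = true := by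
    intro x
    rw [union, Bool.or_eq_true]
    cases hx : L x
    · exact Or.inr ((hfL x).2 (by simp [hx]))
    · exact Or.inl ((hfL x).1 hx)
  obtain ⟨k, hk, hk2⟩ := hopt.2 _ ⟨(isPolyTime_iff _).2 hg, fun y => ⟨fun hy => by
      obtain ⟨w, hw⟩ := (hopt.1.2 y).1 hy
      exact ⟨true :: w, by simpa using hw⟩, by
      rintro ⟨v, rfl⟩
      split_ifs with h1
      · exact (hopt.1.2 _).2 ⟨_, rfl⟩
      · exact hfU _⟩⟩
  have hk' := (isPolyTime_iff _).1 hk
  refine ⟨fun x => k (false :: x), (isPolyTime_iff _).2 (hk'.comp (by fun_prop)), fun x => ?_⟩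
  have h1 := hk2 (false :: x)
  simp only [List.headD_cons, List.tail_cons, Bool.false_eq_true, if_false] at h1
  show L x = B₁ (h (k (false :: x)))
  rw [h1]
  cases hx : L x
  · symm
    rw [Bool.eq_false_iff]
    intro h2
    exact hdisj _ ⟨h2, (hfL x).2 (by simp [hx])⟩
  · exact ((hfL x).1 hx).symm

theorem compl_preimage {B₁ B₀ : DecisionProblem} (hdisj : Disj B₁ B₀)
    {h : List Bool → List Bool} (hopt : IsPOptimalProofSystem (union B₁ B₀) h) :
    (fun w => B₁ (h w) : DecisionProblem)ᶜ = fun w => B₀ (h w) := by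
  funext w
  have h1 : union B₁ B₀ (h w) = true := (hopt.1.2 _).2 ⟨_, rfl⟩
  rw [union, Bool.or_eq_true] at h1
  have h2 := hdisj (h w)
  show (!(B₁ (h w))) = B₀ (h w)
  cases h3 : B₁ (h w) <;> cases h4 : B₀ (h w) <;> simp_all

theorem complete_of_NP {B₁ B₀ : DecisionProblem} (h₁ : B₁ ∈ NP) (h₀ : B₀ ∈ NP)
    (hdisj : Disj B₁ B₀) (hard : HardPair B₁ B₀) {h : List Bool → List Bool}
    (hopt : IsPOptimalProofSystem (union B₁ B₀) h) :
    ∃ L, IsCompleteFor (NP ∩ coNP) L := by
  have hh' := (isPolyTime_iff _).1 hopt.1.1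
  refine ⟨_, complete_of_hardPair hard hopt ⟨NP_preimage h₁ hh', ?_⟩ hdisj⟩
  show (fun w => B₁ (h w) : DecisionProblem)ᶜ ∈ NP
  rw [compl_preimage hdisj hopt]
  exact NP_preimage h₀ hh'

theorem complete_of_coNP {B₁ B₀ : DecisionProblem} (h₁ : B₁ ∈ coNP) (h₀ : B₀ ∈ coNP)
    (hdisj : Disj B₁ B₀) (hard : HardPair B₁ B₀) {h : List Bool → List Bool}
    (hopt : IsPOptimalProofSystem (union B₁ B₀) h) :
    ∃ L, IsCompleteFor (NP ∩ coNP) L := by
  have hh' := (isPolyTime_iff _).1 hopt.1.1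
  refine ⟨_, complete_of_hardPair hard hopt ⟨?_, coNP_preimage h₁ hh'⟩ hdisj⟩
  have h2 := coNP_preimage h₀ hh'
  have h3 := compl_preimage hdisj hopt
  have h4 : (fun w => B₁ (h w) : DecisionProblem) = (fun w => B₀ (h w) : DecisionProblem)ᶜ := by
    rw [← h3, compl_compl]
  rw [h4]
  exact h2

/-! ## The converse -/

theorem compl_mem {L : DecisionProblem} (hL : L ∈ NP ∩ coNP) : Lᶜ ∈ NP ∩ coNP :=
  ⟨hL.2, by show Lᶜᶜ ∈ NP; rw [compl_compl]; exact hL.1⟩

theorem disj_compl (L : DecisionProblem) : Disj L Lᶜ := by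
  intro x hx
  have h2 := hx.2
  rw [compl_true] at h2
  exact h2 hx.1

theorem hard_of_complete {L : DecisionProblem} (hL : IsCompleteFor (NP ∩ coNP) L) :
    HardPair L Lᶜ := by
  intro A hA
  obtain ⟨f, hf, hfA⟩ := hL.2 A hA
  refine ⟨f, hf, fun x => ⟨fun hx => by rw [← hfA]; exact hx, fun hx => ?_⟩⟩
  rw [compl_true] at hx ⊢
  rw [← hfA]
  exact hx

theorem popt_union_compl (L : DecisionProblem) :
    IsPOptimalProofSystem (union L Lᶜ) fun w => w := by
  refine ⟨⟨(isPolyTime_iff _).2 FP.id, fun y => ⟨fun _ => ⟨y, rfl⟩, fun _ => ?_⟩⟩,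
    fun g hg => ⟨g, hg.1, fun _ => rfl⟩⟩
  rw [union]
  show (L y || !(L y)) = true
  cases L y <;> rfl

theorem hard_of_completeNPPair {B₁ B₀ : DecisionProblem} (h : CompleteNPPair B₁ B₀) :
    HardPair B₁ B₀ := fun L hL => h.2 L Lᶜ hL.1 hL.2 (disj_compl L)

/-- a hard pair has a member -/
theorem exists_mem {B₁ B₀ : DecisionProblem} (hard : HardPair B₁ B₀) :
    ∃ y, union B₁ B₀ y = true := by
  have h0 : (fun _ => true : DecisionProblem) ∈ NP ∩ coNP := by
    refine ⟨⟨0, fun _ => true, (isPolyTime_iff _).2 (FP.const _), fun x => ?_⟩,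
      ⟨0, fun _ => false, (isPolyTime_iff _).2 (FP.const _), fun x => ?_⟩⟩
    · simp
    · simp
  obtain ⟨f, _, hf⟩ := hard _ h0
  refine ⟨f [], ?_⟩
  rw [union, (hf []).1 rfl, Bool.true_or]

/-! ## Total search problems -/

theorem cf_length (z : List Bool) : (cf z).length ≤ z.length := by
  induction z using cf.induct with
  | case1 b l ih => simp only [cf, List.length_cons]; omega
  | case2 z h =>
    rw [cf]
    · simp
    · exact h

/-- the answer coded in the instance `v = cd z (cd x (cd c t))`, read off the solution `y` -/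
def bt (a : List Bool × List Bool) : Bool :=
  (fjt (cf (cs (cs a.1))) (cd (cf (cs a.1)) a.2) (cs (cs (cs a.1)))).headD false

theorem bt_FP : FP bt := by
  have h : FP fun a : List Bool × List Bool =>
    fjt (cf (cs (cs a.1))) (cd (cf (cs a.1)) a.2) (cs (cs (cs a.1))) := by fun_prop
  exact FP.headD h _

open Classical in
/-- some solution of the instance `cf v` gives the answer `b` -/
noncomputable def NN (T : TFNPProblem) (b : Bool) : DecisionProblem := fun v =>
  decide (∃ y : List Bool, y.length ≤ T.p.eval (cf v).length ∧ T.R (cf v, y) = true ∧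
    bt (v, y) = b)

theorem NN_NP (T : TFNPProblem) (b : Bool) : NN T b ∈ NP := by
  have hR := (isPolyTime_iff _).1 T.polyTime
  refine ⟨T.p, fun a => decide (a.2.length ≤ (un (T.p.eval (cf a.1).length)).length) &&
    (T.R (cf a.1, a.2) && (bt a == b)), (isPolyTime_iff _).2 ?_, fun v => ?_⟩
  · have h1 : FP fun a : List Bool × List Bool => un (T.p.eval (cf a.1).length) :=
      FP.un_poly (by fun_prop) _
    have h2 : FP fun a : List Bool × List Bool => T.R (cf a.1, a.2) := hR.comp (by fun_prop)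
    have h3 : FP fun a : List Bool × List Bool => (bt a == b) := FP.beq bt_FP (FP.const b)
    have h4 : FP fun a : List Bool × List Bool =>
        decide (a.2.length ≤ (un (T.p.eval (cf a.1).length)).length) := by fun_prop
    exact h4.and (h2.and h3)
  · have hlen : T.p.eval (cf v).length ≤ T.p.eval v.length := poly_mono _ (cf_length v)
    simp only [NN, decide_eq_true_eq, Bool.and_eq_true, un_length, beq_iff_eq]
    constructor
    · rintro ⟨y, hy, h1, h2⟩
      exact ⟨y, hy.trans hlen, hy, h1, h2⟩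
    · rintro ⟨y, _, hy, h1, h2⟩
      exact ⟨y, hy, h1, h2⟩

theorem hardPair_of_TFNP {T : TFNPProblem} (hT : T.IsComplete) :
    (NN T false)ᶜ ∈ coNP ∧ (NN T true)ᶜ ∈ coNP ∧ Disj (NN T false)ᶜ (NN T true)ᶜ ∧
      HardPair (NN T false)ᶜ (NN T true)ᶜ := by
  refine ⟨?_, ?_, ?_, ?_⟩
  · show (NN T false)ᶜᶜ ∈ NP
    rw [compl_compl]; exact NN_NP T false
  · show (NN T true)ᶜᶜ ∈ NP
    rw [compl_compl]; exact NN_NP T true
  · rintro v ⟨h1, h0⟩
    rw [compl_true] at h1 h0
    obtain ⟨y, hy, hyR⟩ := T.total (cf v)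
    cases hb : bt (v, y)
    · exact h1 (by simp only [NN, decide_eq_true_eq]; exact ⟨y, hy, hyR, hb⟩)
    · exact h0 (by simp only [NN, decide_eq_true_eq]; exact ⟨y, hy, hyR, hb⟩)
  · rintro L ⟨⟨p₁, R₁, hR₁, hL₁⟩, ⟨p₀, R₀, hR₀, hL₀⟩⟩
    have f1 := (isPolyTime_iff _).1 hR₁
    have f0 := (isPolyTime_iff _).1 hR₀
    -- the search problem for the certificates of `L`
    let S : TFNPProblem :=
      { R := fun a => if a.2.headD false then wL R₁ p₁ (a.1, a.2.tail)
          else wL R₀ p₀ (a.1, a.2.tail)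
        p := p₁ + p₀ + 1
        polyTime := (isPolyTime_iff _).2 (by
          have h1 : FP fun a : List Bool × List Bool => a.2.headD false := FP.headD FP.snd _
          have h2 : FP fun a : List Bool × List Bool => wL R₁ p₁ (a.1, a.2.tail) :=
            (wL_FP f1 p₁).comp (by fun_prop)
          have h3 : FP fun a : List Bool × List Bool => wL R₀ p₀ (a.1, a.2.tail) :=
            (wL_FP f0 p₀).comp (by fun_prop)
          exact FP.ite h1 h2 h3)
        total := fun x => by
          cases hx : L x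
          · obtain ⟨w, hw, hw'⟩ := (hL₀ x).1 (by rw [compl_true, hx]; simp)
            refine ⟨false :: w, ?_, ?_⟩
            · simp only [List.length_cons, Polynomial.eval_add, Polynomial.eval_one]; omega
            · simp only [List.headD_cons, List.tail_cons, Bool.false_eq_true, if_false]
              exact wL_iff.2 ⟨hw, hw'⟩
          · obtain ⟨w, hw, hw'⟩ := (hL₁ x).1 hx
            refine ⟨true :: w, ?_, ?_⟩
            · simp only [List.length_cons, Polynomial.eval_add, Polynomial.eval_one]; omega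
            · simp only [List.headD_cons, List.tail_cons, if_true]
              exact wL_iff.2 ⟨hw, hw'⟩ }
    obtain ⟨f, g, hf, hg, hfg⟩ := hT S
    have hf' := (isPolyTime_iff _).1 hf
    have hg' := (isPolyTime_iff _).1 hg
    have hG : FP fun v : List Bool => [(g (cf v, cs v)).headD false] := by
      have h1 : FP fun v : List Bool => g (cf v, cs v) := hg'.comp (by fun_prop)
      exact (FP.headD h1 _).cons (FP.const [])
    obtain ⟨c, hc⟩ := exists_fj hG
    obtain ⟨B, hB, hBm, hBle⟩ := hf'.bound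
    have hPB : PB fun n => (2 * n + 1 + T.p.eval (B (3 * n))) ^ (cs c).length := by
      have h1 : PB fun n => T.p.eval n := PB.poly _
      have h2 : PB fun n => B (3 * n) := hB.comp (by fun_prop)
      have h3 : PB fun n => T.p.eval (B (3 * n)) := h1.comp h2
      have h4 : PB fun n => 2 * n + 1 + T.p.eval (B (3 * n)) := by fun_prop
      exact h4.pow _
    obtain ⟨q, hq⟩ := exists_poly hPB
    have hbt : ∀ x y : List Bool, y.length ≤ T.p.eval (f x).length →
        bt (cd (f x) (cd x (cd c (un (q.eval x.length)))), y) = (g (x, y)).headD false := by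
      intro x y hy
      simp only [bt, cf_cd, cs_cd]
      rw [fjt_eq, hc, List.headD_cons, cf_cd, cs_cd]
      rw [un_length]
      refine le_trans (Nat.pow_le_pow_left ?_ _) (hq _)
      rw [cd_length]
      have h1 := hBle x
      have h2 := length_le_sz (f x)
      rw [sz_bits x] at h1
      have h3 : T.p.eval (f x).length ≤ T.p.eval (B (3 * x.length)) := poly_mono _ (by omega)
      omega
    have hfp : FP fun x : List Bool => cd (f x) (cd x (cd c (un (q.eval x.length)))) := by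
      have h1 : FP fun x : List Bool => un (q.eval x.length) := FP.un_poly FP.id _
      fun_prop
    refine ⟨fun x => cd (f x) (cd x (cd c (un (q.eval x.length)))),
      (isPolyTime_iff _).2 hfp, fun x => ⟨fun hx => ?_, fun hx => ?_⟩⟩
    · rw [compl_true]
      simp only [NN, decide_eq_true_eq, cf_cd]
      rintro ⟨y, hy, hyR, hb⟩
      rw [hbt x y hy] at hb
      have h1 := (hfg x y hy hyR).2
      simp only [S] at h1
      rw [hb] at h1
      simp only [Bool.false_eq_true, if_false, wL_iff] at h1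
      have h2 := (hL₀ x).2 ⟨_, h1⟩
      rw [compl_true] at h2
      exact h2 hx
    · rw [compl_true]
      simp only [NN, decide_eq_true_eq, cf_cd]
      rintro ⟨y, hy, hyR, hb⟩
      rw [hbt x y hy] at hb
      have h1 := (hfg x y hy hyR).2
      simp only [S] at h1
      rw [hb] at h1
      simp only [if_true, wL_iff] at h1
      have h2 := (hL₁ x).2 ⟨_, h1⟩
      rw [compl_true] at hx
      exact hx h2

/-! ## The theorems -/

theorem complete_iff_NP : (∃ L, IsCompleteFor (NP ∩ coNP) L) ↔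
    ∃ (B₁ B₀ : DecisionProblem) (h : List Bool → List Bool), B₁ ∈ NP ∧ B₀ ∈ NP ∧ Disj B₁ B₀ ∧
      HardPair B₁ B₀ ∧ IsPOptimalProofSystem (union B₁ B₀) h := by
  constructor
  · rintro ⟨L, hL⟩
    exact ⟨L, Lᶜ, _, hL.1.1, hL.1.2, disj_compl L, hard_of_complete hL, popt_union_compl L⟩
  · rintro ⟨B₁, B₀, h, h₁, h₀, hd, hh, hopt⟩
    exact complete_of_NP h₁ h₀ hd hh hopt

theorem complete_iff_coNP : (∃ L, IsCompleteFor (NP ∩ coNP) L) ↔
    ∃ (B₁ B₀ : DecisionProblem) (h : List Bool → List Bool), B₁ ∈ coNP ∧ B₀ ∈ coNP ∧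
      Disj B₁ B₀ ∧ HardPair B₁ B₀ ∧ IsPOptimalProofSystem (union B₁ B₀) h := by
  constructor
  · rintro ⟨L, hL⟩
    exact ⟨L, Lᶜ, _, hL.1.2, (compl_mem hL.1).2, disj_compl L, hard_of_complete hL,
      popt_union_compl L⟩
  · rintro ⟨B₁, B₀, h, h₁, h₀, hd, hh, hopt⟩
    exact complete_of_coNP h₁ h₀ hd hh hopt

theorem popt_of_HasPOptimal {C : DecisionComplexityClass} (hC : HasPOptimal C)
    {D : DecisionProblem} (hD : D ∈ C) {y : List Bool} (hy : D y = true) :
    ∃ k, IsPOptimalProofSystem D k := by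
  obtain ⟨K, h, hK, hopt⟩ := hC
  obtain ⟨r, hr, hrD⟩ := hK.2 D hD
  exact popt_down hopt ((isPolyTime_iff _).1 hr) hrD hy

theorem complete_iff_of_NP (hC : HasPOptimal NP) : (∃ L, IsCompleteFor (NP ∩ coNP) L) ↔
    ∃ B₁ B₀ : DecisionProblem, B₁ ∈ NP ∧ B₀ ∈ NP ∧ Disj B₁ B₀ ∧ HardPair B₁ B₀ := by
  constructor
  · rintro ⟨L, hL⟩
    exact ⟨L, Lᶜ, hL.1.1, hL.1.2, disj_compl L, hard_of_complete hL⟩
  · rintro ⟨B₁, B₀, h₁, h₀, hd, hh⟩
    obtain ⟨y, hy⟩ := exists_mem hh
    obtain ⟨k, hk⟩ := popt_of_HasPOptimal hC (NP_union h₁ h₀) hy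
    exact complete_of_NP h₁ h₀ hd hh hk

theorem complete_iff_of_coNP (hC : HasPOptimal coNP) : (∃ L, IsCompleteFor (NP ∩ coNP) L) ↔
    ∃ B₁ B₀ : DecisionProblem, B₁ ∈ coNP ∧ B₀ ∈ coNP ∧ Disj B₁ B₀ ∧ HardPair B₁ B₀ := by
  constructor
  · rintro ⟨L, hL⟩
    exact ⟨L, Lᶜ, hL.1.2, (compl_mem hL.1).2, disj_compl L, hard_of_complete hL⟩
  · rintro ⟨B₁, B₀, h₁, h₀, hd, hh⟩
    obtain ⟨y, hy⟩ := exists_mem hh
    obtain ⟨k, hk⟩ := popt_of_HasPOptimal hC (coNP_union h₁ h₀) hy
    exact complete_of_coNP h₁ h₀ hd hh hk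

end Pool.Agent.Helper20.PP
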